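import Pool.Agent.Helper40_MVD.Base

/-!
Row FCT of squad MVD: facts about the main blocks.
-/

namespace Pool.Agent.MVD.H40

open Pool.Agent.Helper14_MV Pool.Agent.Helper2_MV

/-- the part of `pj` for the letters of the chain -/
def pz (k : ℕ) (c : ℕ) : List ℕ :=
  if c % 3 = 1 ∧ (c / 3) % 5 = k then [3 * (c / 3 / 5) + 1] else []

theorem pj_y (j k : ℕ) : pj j k (3 * j) = [0] := by
  have h : 3 * j % 3 = 0 := by omega
  rw [pj, if_pos h, if_pos rfl]

theorem pj_y' {j l k : ℕ} (h : l ≠ j) : pj j k (3 * l) = [] := by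
  have h0 : 3 * l % 3 = 0 := by omega
  rw [pj, if_pos h0, if_neg (by omega)]

theorem pj_z (j k c : ℕ) (hc : c % 3 = 1) : pj j k c = pz k c := by
  rw [pj, if_neg (by omega), if_pos hc, pz]
  by_cases h : c / 3 % 5 = k
  · rw [if_pos h, if_pos ⟨hc, h⟩]
  · rw [if_neg h, if_neg (fun h' => h h'.2)]

theorem pz_y (k l : ℕ) : pz k (3 * l) = [] := by
  rw [pz, if_neg (by omega)]

theorem pz_z {e k k' : ℕ} (hk' : k' < 5) (h : k' ≠ k) : pz k (3 * (5 * e + k') + 1) = [] := by
  rw [pz, if_neg (by omega)]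

theorem pj_len (j k c : ℕ) : (pj j k c).length ≤ 1 := by
  unfold pj
  split_ifs <;> simp

/-- (a) -/
theorem fct_a {β : FIC} {P Q : List ℕ} {m : ℕ} {L : List ℕ} (hH : HH β P Q m)
    (hL : ∀ c ∈ L, c % 3 ≠ 2) {l k : ℕ}
    (hI : Inc β P Q m L l k) : ∀ e < m, Btw (3 * l) (3 * (5 * e + k) + 1) L := by
  intro e he
  have h1 := hH _ hI.symm e he
  rw [wm_eq] at h1
  have h2 : Btw 0 (3 * e + 1) (L.flatMap (pj l k)) := by
    have h3 : plc P ++ (L.flatMap (pj l k) ++ 2 :: plc Q) =
      plc P ++ (L.flatMap (pj l k) ++ (2 :: plc Q)) := rfl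
    rw [h3] at h1
    refine btw_mid ?_ ?_ h1
    · intro h
      rcases mem_plc h with ⟨a, _, ha⟩ | ⟨a, _, ha⟩ <;> omega
    · intro h
      rw [List.mem_cons] at h
      rcases h with h | h
      · omega
      · rcases mem_plc h with ⟨a, _, ha⟩ | ⟨a, _, ha⟩ <;> omega
  rw [btw_iff] at h2
  obtain ⟨s', h4, h5⟩ := sub_lift _ (pj_len l k) _ _ h2
  have hy : ∀ c ∈ L, pj l k c = [0] → c = 3 * l := by
    intro c hc h
    by_contra h6
    by_cases h7 : c % 3 = 0
    · rw [pj, if_pos h7, if_neg h6] at h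
      exact absurd h (by simp)
    · have h8 := hL c hc
      rw [pj, if_neg h7, if_pos (by omega)] at h
      split_ifs at h
      · rw [List.cons.injEq] at h
        omega
  have hz : ∀ c ∈ L, pj l k c = [3 * e + 1] → c = 3 * (5 * e + k) + 1 := by
    intro c hc h
    by_cases h7 : c % 3 = 0
    · rw [pj, if_pos h7] at h
      split_ifs at h
      rw [List.cons.injEq] at h
      omega
    · have h8 := hL c hc
      rw [pj, if_neg h7, if_pos (by omega)] at h
      split_ifs at h with h9
      rw [List.cons.injEq] at h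
      omega
  cases h5 with
  | cons a1 t1 =>
    cases t1 with
    | cons a2 t2 =>
      cases t2 with
      | cons a3 t3 =>
        cases t3 with
        | nil =>
          rename_i c1 c2 c3
          have e1 := hy c1 (h4.subset (by simp)) a1
          have e2 := hz c2 (h4.subset (by simp)) a2
          have e3 := hy c3 (h4.subset (by simp)) a3
          subst e1 e2 e3
          rw [btw_iff]
          exact h4

/-- the image of `L` if the letter `3 l` is around the copy `k` -/
theorem flat_form {m : ℕ} {L : List ℕ} (hL : L.Perm (Lg m 1)) {l k : ℕ} (hl : l < 4) (hk : k < 5)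
    (hm : 1 ≤ m) (hall : ∀ e < m, Btw (3 * l) (3 * (5 * e + k) + 1) L) :
    L.flatMap (pj l k) = 0 :: (L.flatMap (pz k) ++ [0]) := by
  obtain ⟨a, b, c, h1, _⟩ := hall 0 (by omega)
  have hc2 := count_y hL hl
  have hb : ∀ e < m, 3 * (5 * e + k) + 1 ∈ b := by
    intro e he
    have h2 := hall e he
    rw [h1] at h2 hc2
    exact two_mem hc2 h2
  have hcy : a.count (3 * l) = 0 ∧ b.count (3 * l) = 0 ∧ c.count (3 * l) = 0 := by
    rw [h1] at hc2
    simp only [List.count_append, List.count_cons_self] at hc2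
    omega
  have hcz : ∀ e < m, a.count (3 * (5 * e + k) + 1) = 0 ∧ c.count (3 * (5 * e + k) + 1) = 0 := by
    intro e he
    have h2 := count_z hL he hk
    have h3 := List.count_pos_iff.2 (hb e he)
    rw [h1] at h2
    have h4 : (3 * l == 3 * (5 * e + k) + 1) = false := by
      rw [beq_eq_false_iff_ne]
      omega
    simp only [List.count_append, List.count_cons, h4] at h2
    simp at h2
    omega
  have hout : ∀ u : List ℕ, (∀ d ∈ u, d ∈ L) → u.count (3 * l) = 0 →
      (∀ e < m, u.count (3 * (5 * e + k) + 1) = 0) →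
        u.flatMap (pj l k) = [] ∧ u.flatMap (pz k) = [] := by
    intro u hu h2 h3
    constructor
    · rw [List.flatMap_eq_nil_iff]
      intro d hd
      rcases mem_perm hL (hu d hd) with ⟨l', _, rfl⟩ | ⟨e, he, k', hk', rfl⟩
      · refine pj_y' ?_
        rintro rfl
        exact List.count_eq_zero.1 h2 hd
      · rw [pj_z _ _ _ (by omega)]
        refine pz_z hk' ?_
        rintro rfl
        exact List.count_eq_zero.1 (h3 e he) hd
    · rw [List.flatMap_eq_nil_iff]
      intro d hd
      rcases mem_perm hL (hu d hd) with ⟨l', _, rfl⟩ | ⟨e, he, k', hk', rfl⟩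
      · exact pz_y _ _
      · refine pz_z hk' ?_
        rintro rfl
        exact List.count_eq_zero.1 (h3 e he) hd
  have ha := hout a (fun d hd => by rw [h1]; simp [hd]) hcy.1 (fun e he => (hcz e he).1)
  have hc := hout c (fun d hd => by rw [h1]; simp [hd]) hcy.2.2 (fun e he => (hcz e he).2)
  have hbb : b.flatMap (pj l k) = b.flatMap (pz k) := by
    have h5 : ∀ d ∈ b, pj l k d = pz k d := by
      intro d hd
      rcases mem_perm hL (show d ∈ L by rw [h1]; simp [hd]) with
        ⟨l', _, rfl⟩ | ⟨e, he, k', hk', rfl⟩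
      · rw [pz_y]
        refine pj_y' ?_
        rintro rfl
        exact List.count_eq_zero.1 hcy.2.1 hd
      · exact pj_z _ _ _ (by omega)
    rw [List.flatMap_def, List.flatMap_def, List.map_congr_left h5]
  rw [h1]
  simp only [List.flatMap_append, List.flatMap_cons, ha.1, ha.2, hc.1, hc.2, hbb, pj_y, pz_y]
  simp

/-- **FCT** -/
theorem fct : FctStmt := by
  intro β _ _ P Q m hm _ hH g L hSL
  obtain ⟨hL, hI⟩ := hSL
  have hL3 : ∀ c ∈ L, c % 3 ≠ 2 := by
    intro c hc
    rcases mem_perm hL hc with ⟨l', _, rfl⟩ | ⟨e, he, k', hk', rfl⟩ <;> omega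
  have hA : ∀ j : Fin 4, ∀ k, (k = j.val ∨ k = j.val + 1) → ∀ e < m,
      Btw (3 * (g j).val) (3 * (5 * e + k) + 1) L := by
    intro j k hk
    have hj := j.isLt
    exact fct_a hH hL3 ((hI j k (by omega)).2 hk)
  refine ⟨hA, ?_⟩
  intro j k hk5 hk
  by_contra hcon
  push Not at hcon
  obtain ⟨j2, hj2⟩ : ∃ j2 : Fin 4, k = j2.val ∨ k = j2.val + 1 := by
    by_cases h : k < 4
    · exact ⟨⟨k, h⟩, Or.inl rfl⟩
    · exact ⟨⟨3, by norm_num⟩, Or.inr (by simp; omega)⟩
  have h1 := flat_form hL (g j).isLt hk5 hm hcon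
  have h2 := flat_form hL (g j2).isLt hk5 hm (hA j2 k hj2)
  have h3 : Inc β P Q m L (g j2).val k := (hI j2 k hk5).2 hj2
  have h4 : Inc β P Q m L (g j).val k := by
    unfold Inc at h3 ⊢
    rw [h1, ← h2]
    exact h3
  exact hk ((hI j k hk5).1 h4)

end Pool.Agent.MVD.H40
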