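import Pool.Agent.Helper40_MVD.KeyB

/-!
Row KEY of squad MVD: substitution instances of `p_g` in `SS h` are trivial or `p_h`.
-/

namespace Pool.Agent.MVD.H40

open Pool.Agent.Helper14_MV Pool.Agent.Helper2_MV

variable {P Q : List ℕ} {m : ℕ} {g h : Equiv.Perm (Fin 4)} {φ : ℕ → List ℕ} {M N L : List ℕ}

theorem Cx.fin (H : Cx P Q m g h φ M N L) (s : Equiv.Perm (Fin 4)) :
    M ++ ((pw P Q m (g * s)).flatMap φ ++ N) = pw P Q m (h * s) := by
  have h1 : ∀ i : Fin 4, φ (3 * (g i).val) = [3 * (h i).val] := H.all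
  have h2 : ∀ i < m, ∀ k < 5, φ (3 * (5 * i + k) + 1) = [3 * (5 * i + k) + 1] := by
    intro i hi k hk
    by_cases hk4 : k < 4
    · exact ((H.transp (h1 ⟨k, hk4⟩)) i hi).1
    · have h3 := ((H.transp (h1 3)) i hi).2
      have h4 : k = 4 := by omega
      subst h4
      exact h3
  have h3 := Lg_flat h1 h2
  obtain ⟨a, c, e1, e2, e3⟩ := H.main
  have h4 := h3 1
  rw [mul_one, mul_one] at h4
  have h5 := congrArg List.length e1
  rw [h4, H.hL.length_eq, Lg_length, List.length_append, List.length_append, Lg_length] at h5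
  have ha : a = [] := List.eq_nil_of_length_eq_zero (by omega)
  have hc : c = [] := List.eq_nil_of_length_eq_zero (by omega)
  subst ha hc
  rw [List.append_nil] at e2
  rw [List.nil_append] at e3
  have h6 : M ++ ((pw P Q m (g * s)).flatMap φ ++ N) = (M ++ (plc (star P)).flatMap φ) ++
      ((Lg m (g * s)).flatMap φ ++ (φ 2 ++ ((plc (star Q)).flatMap φ ++ N))) := by
    rw [pw, wm_eq]
    simp only [List.flatMap_append, List.flatMap_cons, List.append_assoc]
  rw [h6, e2, e3, h3 s, pw, wm_eq]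

/-- **KEY** -/
theorem key (_hUni : UniStmt) (hFac : FacStmt) (hFct : FctStmt) : KeyStmt := by
  intro β h2 h3 P Q m hm hPQ hH g h φ M N hS
  obtain ⟨L, hw, hSL⟩ := hS
  obtain ⟨F1, F2⟩ := hFct β h2 h3 P Q m hm hPQ hH h L hSL
  by_cases hne : ∀ j : Fin 4, φ (3 * j.val) = []
  · exact Or.inl hne
  · right
    push Not at hne
    intro s
    exact Cx.fin ⟨hFac, hm, hPQ, hSL.1, hw, F1, F2, hne⟩ s

end Pool.Agent.MVD.H40
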