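import Pool.Agent.MVD.Stmts

/-!
Common facts for the rows FCT and KEY of squad MVD.
-/

namespace Pool.Agent.MVD.H40

open Pool.Agent.Helper14_MV Pool.Agent.Helper2_MV

/-! ### letters between two occurrences -/

theorem btw_iff {y z : ℕ} {w : List ℕ} : Btw y z w ↔ [y, z, y].Sublist w := by
  constructor
  · rintro ⟨a, b, c, rfl, hz⟩
    obtain ⟨b1, b2, rfl⟩ := List.append_of_mem hz
    refine List.Sublist.trans ?_ (List.sublist_append_right a _)
    refine List.Sublist.cons_cons y ?_
    rw [List.append_assoc]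
    refine List.Sublist.trans ?_ (List.sublist_append_right b1 _)
    rw [List.cons_append]
    refine List.Sublist.cons_cons z ?_
    refine List.Sublist.trans ?_ (List.sublist_append_right b2 _)
    exact List.Sublist.cons_cons y (List.nil_sublist _)
  · intro h
    rw [List.cons_sublist_iff] at h
    obtain ⟨r1, r2, rfl, h1, h2⟩ := h
    rw [List.cons_sublist_iff] at h2
    obtain ⟨s1, s2, rfl, h3, h4⟩ := h2
    rw [List.singleton_sublist] at h4
    obtain ⟨p1, p2, rfl⟩ := List.append_of_mem h1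
    obtain ⟨q1, q2, rfl⟩ := List.append_of_mem h4
    exact ⟨p1, p2 ++ (s1 ++ q1), q2, by simp, by simp [h3]⟩

/-- the letters `y` are only in the middle -/
theorem btw_mid {A M C : List ℕ} {y z : ℕ} (hA : y ∉ A) (hC : y ∉ C)
    (h : Btw y z (A ++ (M ++ C))) : Btw y z M := by
  obtain ⟨a, b, c, h1, hz⟩ := h
  rw [List.append_eq_append_iff] at h1
  rcases h1 with ⟨a', h2, h3⟩ | ⟨c', h2, h3⟩
  · have h4 : M ++ C = (a' ++ y :: b) ++ y :: c := by rw [h3]; simp
    rw [List.append_eq_append_iff] at h4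
    rcases h4 with ⟨a2, h5, h6⟩ | ⟨c2, h5, h6⟩
    · exact absurd (by rw [h6]; simp) hC
    · cases c2 with
      | nil => exact absurd (by rw [← List.nil_append C, ← h6]; simp) hC
      | cons d c3 =>
        rw [List.cons_append, List.cons.injEq] at h6
        obtain ⟨rfl, h7⟩ := h6
        exact ⟨a', b, c3, by rw [h5]; simp, hz⟩
  · cases c' with
    | nil =>
      rw [List.nil_append] at h3
      have h4 : M ++ C = (y :: b) ++ y :: c := by rw [← h3]; simp
      rw [List.append_eq_append_iff] at h4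
      rcases h4 with ⟨a2, h5, h6⟩ | ⟨c2, h5, h6⟩
      · exact absurd (by rw [h6]; simp) hC
      · cases c2 with
        | nil => exact absurd (by rw [← List.nil_append C, ← h6]; simp) hC
        | cons d c3 =>
          rw [List.cons_append, List.cons.injEq] at h6
          obtain ⟨rfl, h7⟩ := h6
          exact ⟨[], b, c3, by rw [h5]; simp, hz⟩
    | cons d c2 =>
      rw [List.cons_append, List.cons.injEq] at h3
      obtain ⟨rfl, h4⟩ := h3
      exact absurd (by rw [h2]; simp) hA

/-- sublists of the image of a word under a substitution with short values -/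
theorem sub_lift (f : ℕ → List ℕ) (hf : ∀ c, (f c).length ≤ 1) : ∀ (L s : List ℕ),
    s.Sublist (L.flatMap f) →
      ∃ s', s'.Sublist L ∧ List.Forall₂ (fun d c => f c = [d]) s s' := by
  intro L
  induction L with
  | nil =>
    intro s hs
    rw [List.flatMap_nil, List.sublist_nil] at hs
    subst hs
    exact ⟨[], List.Sublist.refl _, List.Forall₂.nil⟩
  | cons c L ih =>
    intro s hs
    rw [List.flatMap_cons, List.sublist_append_iff] at hs
    obtain ⟨s1, s2, rfl, h1, h2⟩ := hs
    obtain ⟨s', h3, h4⟩ := ih s2 h2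
    cases s1 with
    | nil => exact ⟨s', h3.cons _, h4⟩
    | cons d s3 =>
      have h5 := h1.length_le
      have h6 := hf c
      rw [List.length_cons] at h5
      have h7 : s3 = [] := List.eq_nil_of_length_eq_zero (by omega)
      subst h7
      have h8 : f c = [d] := (h1.eq_of_length (by simp at h5 ⊢; omega)).symm
      exact ⟨c :: s', h3.cons_cons _, List.Forall₂.cons h8 h4⟩

/-- a word with exactly two letters `Y` -/
theorem two_mem {p b q : List ℕ} {Y z : ℕ} (h2 : (p ++ Y :: (b ++ Y :: q)).count Y = 2)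
    (h : Btw Y z (p ++ Y :: (b ++ Y :: q))) : z ∈ b := by
  obtain ⟨p1, b1, q1, h1, hz⟩ := h
  have e1 : (p ++ Y :: (b ++ Y :: q)).count Y = p.count Y + (b.count Y + q.count Y) + 2 := by
    simp only [List.count_append, List.count_cons_self]; omega
  have e2 : (p1 ++ Y :: (b1 ++ Y :: q1)).count Y = p1.count Y + (b1.count Y + q1.count Y) + 2 := by
    simp only [List.count_append, List.count_cons_self]; omega
  have e3 := h2
  rw [e1] at h2
  rw [h1, e2] at e3
  have hp : Y ∉ p := List.count_eq_zero.1 (by omega)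
  have hp1 : Y ∉ p1 := List.count_eq_zero.1 (by omega)
  have hb : Y ∉ b := List.count_eq_zero.1 (by omega)
  have hb1 : Y ∉ b1 := List.count_eq_zero.1 (by omega)
  have key : ∀ (u v r s : List ℕ), Y ∉ u → Y ∉ v → u ++ Y :: r = v ++ Y :: s → u = v ∧ r = s := by
    intro u
    induction u with
    | nil =>
      intro v r s _ hv he
      cases v with
      | nil => simpa using he
      | cons d v =>
        rw [List.nil_append, List.cons_append, List.cons.injEq] at he
        exact absurd (by simp [he.1]) hv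
    | cons c u ih =>
      intro v r s hu hv he
      cases v with
      | nil =>
        rw [List.nil_append, List.cons_append, List.cons.injEq] at he
        exact absurd (by simp [he.1]) hu
      | cons d v =>
        rw [List.cons_append, List.cons_append, List.cons.injEq] at he
        obtain ⟨rfl, he⟩ := he
        obtain ⟨rfl, h⟩ := ih v r s (fun h => hu (List.mem_cons_of_mem _ h))
          (fun h => hv (List.mem_cons_of_mem _ h)) he
        exact ⟨rfl, h⟩
  obtain ⟨_, h3⟩ := key _ _ _ _ hp hp1 h1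
  obtain ⟨h4, _⟩ := key _ _ _ _ hb hb1 h3
  rw [h4]; exact hz

/-! ### the words `Wm` -/

/-- the place blocks with their separators -/
def plc (S : List ℕ) : List ℕ := S.flatMap (fun e => [3 * e + 1, 3 * (e + 1) + 2])

/-- the blocks of `Wm` -/
def bl (L : List ℕ) (r : ℕ) : List ℕ := if r = 0 then L else [3 * (r - 1) + 1]

theorem bw_plc (S L : List ℕ) : Bw (S.map (fun e => e + 1)) (bl L) = plc S := by
  rw [Bw, List.flatMap_map]
  rfl

theorem wm_eq (P Q L : List ℕ) : Wm P Q L = plc P ++ (L ++ 2 :: plc Q) := by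
  have h : Wm P Q L = Bw (P.map (fun e => e + 1) ++ 0 :: Q.map (fun e => e + 1)) (bl L) := rfl
  rw [h, Bw, List.flatMap_append, List.flatMap_cons]
  have h1 := bw_plc P L
  have h2 := bw_plc Q L
  rw [Bw] at h1 h2
  rw [h1, h2]
  simp [bl]

theorem mem_plc {S : List ℕ} {c : ℕ} (h : c ∈ plc S) :
    (∃ e ∈ S, c = 3 * e + 1) ∨ ∃ e ∈ S, c = 3 * (e + 1) + 2 := by
  rw [plc, List.mem_flatMap] at h
  obtain ⟨e, he, h⟩ := h
  rw [List.mem_cons, List.mem_singleton] at h
  rcases h with h | h
  · exact Or.inl ⟨e, he, h⟩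
  · exact Or.inr ⟨e, he, h⟩

/-! ### the main blocks -/

theorem mem_cc {m k c : ℕ} : c ∈ cc m k ↔ ∃ e < m, c = 3 * (5 * e + k) + 1 := by
  rw [cc, List.mem_map]
  constructor
  · rintro ⟨e, he, rfl⟩
    exact ⟨e, List.mem_range.1 he, rfl⟩
  · rintro ⟨e, he, rfl⟩
    exact ⟨e, List.mem_range.2 he, rfl⟩

theorem cc_count_y (m k c : ℕ) (hc : c % 3 = 0) : (cc m k).count c = 0 := by
  rw [List.count_eq_zero, mem_cc]
  rintro ⟨e, _, rfl⟩
  omega

theorem cc_count_z (m k e k' : ℕ) (hk : k < 5) (hk' : k' < 5) (he : e < m) :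
    (cc m k).count (3 * (5 * e + k') + 1) = if k = k' then 1 else 0 := by
  by_cases h : k = k'
  · subst h
    rw [if_pos rfl, cc]
    have hn : ((List.range m).map (fun i => 3 * (5 * i + k) + 1)).Nodup := by
      refine List.Nodup.map ?_ List.nodup_range
      intro a b hab
      simp only at hab
      omega
    exact List.count_eq_one_of_mem hn (List.mem_map.2 ⟨e, List.mem_range.2 he, rfl⟩)
  · rw [if_neg h, List.count_eq_zero, mem_cc]
    rintro ⟨e', _, h'⟩
    omega

theorem cc_length (m k : ℕ) : (cc m k).length = m := by simp [cc]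

theorem mem_Lg {m c : ℕ} {g : Equiv.Perm (Fin 4)} (h : c ∈ Lg m g) :
    (∃ j : Fin 4, c = 3 * (g j).val) ∨ ∃ e < m, ∃ k < 5, c = 3 * (5 * e + k) + 1 := by
  simp only [Lg, List.mem_append, List.mem_cons, List.not_mem_nil, or_false, mem_cc] at h
  rcases h with (((((((((h | h) | h) | h) | (h | h)) | h) | (h | h)) | h) | h) | h) | h
  all_goals first
    | exact Or.inl ⟨_, h⟩
    | (obtain ⟨e, he, h⟩ := h; exact Or.inr ⟨e, he, _, by norm_num, h⟩)

/-- one letter `y` and its copies -/
theorem Lg_dec (m : ℕ) (g : Equiv.Perm (Fin 4)) (j : Fin 4) :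
    ∃ U X gap, Lg m g = U ++ 3 * (g j).val :: ((cc m j.val ++ (gap ++ cc m (j.val + 1))) ++
      3 * (g j).val :: X) ∧
      ∀ μ ∈ gap, ∃ i : Fin 4, μ = 3 * (g i).val ∧ (i.val = j.val + 1 ∨ i.val + 1 = j.val) := by
  fin_cases j
  · refine ⟨[], 3 * (g 2).val :: (cc m 2 ++ [3 * (g 1).val, 3 * (g 3).val] ++ cc m 3 ++
      [3 * (g 2).val] ++ cc m 4 ++ [3 * (g 3).val]), [3 * (g 1).val], ?_, ?_⟩
    · simp [Lg]
    · intro μ hμ
      rw [List.mem_singleton] at hμ
      exact ⟨1, hμ, Or.inl rfl⟩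
  · refine ⟨[3 * (g 0).val] ++ cc m 0, 3 * (g 3).val :: (cc m 3 ++
      [3 * (g 2).val] ++ cc m 4 ++ [3 * (g 3).val]), [3 * (g 0).val, 3 * (g 2).val], ?_, ?_⟩
    · simp [Lg]
    · intro μ hμ
      rw [List.mem_cons, List.mem_singleton] at hμ
      rcases hμ with hμ | hμ
      · exact ⟨0, hμ, Or.inr rfl⟩
      · exact ⟨2, hμ, Or.inl rfl⟩
  · refine ⟨[3 * (g 0).val] ++ cc m 0 ++ [3 * (g 1).val] ++ cc m 1 ++ [3 * (g 0).val],
      cc m 4 ++ [3 * (g 3).val], [3 * (g 1).val, 3 * (g 3).val], ?_, ?_⟩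
    · simp [Lg]
    · intro μ hμ
      rw [List.mem_cons, List.mem_singleton] at hμ
      rcases hμ with hμ | hμ
      · exact ⟨1, hμ, Or.inr rfl⟩
      · exact ⟨3, hμ, Or.inl rfl⟩
  · refine ⟨[3 * (g 0).val] ++ cc m 0 ++ [3 * (g 1).val] ++ cc m 1 ++
      [3 * (g 0).val, 3 * (g 2).val] ++ cc m 2 ++ [3 * (g 1).val],
      [], [3 * (g 2).val], ?_, ?_⟩
    · simp [Lg]
    · intro μ hμ
      rw [List.mem_singleton] at hμ
      exact ⟨2, hμ, Or.inr rfl⟩

theorem Lg_length (m : ℕ) (g : Equiv.Perm (Fin 4)) : (Lg m g).length = 5 * m + 8 := by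
  simp only [Lg, List.length_append, List.length_cons, List.length_nil, cc_length]
  ring

theorem mem_perm {m c : ℕ} {L : List ℕ} (hL : L.Perm (Lg m 1)) (h : c ∈ L) :
    (∃ l < 4, c = 3 * l) ∨ ∃ e < m, ∃ k < 5, c = 3 * (5 * e + k) + 1 := by
  rcases mem_Lg (hL.subset h) with ⟨j, hj⟩ | h
  · exact Or.inl ⟨_, Fin.isLt _, hj⟩
  · exact Or.inr h

theorem count_y {m l : ℕ} {L : List ℕ} (hL : L.Perm (Lg m 1)) (hl : l < 4) :
    L.count (3 * l) = 2 := by
  rw [hL.count_eq, Lg]
  simp only [List.count_append, cc_count_y m _ (3 * l) (by omega)]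
  interval_cases l <;> decide

theorem count_z {m e k : ℕ} {L : List ℕ} (hL : L.Perm (Lg m 1)) (he : e < m) (hk : k < 5) :
    L.count (3 * (5 * e + k) + 1) = 1 := by
  rw [hL.count_eq, Lg]
  have h0 : ∀ a : ℕ, (3 * a == 3 * (5 * e + k) + 1) = false := by
    intro a
    rw [beq_eq_false_iff_ne]
    omega
  simp only [List.count_append, List.count_cons, List.count_nil, h0]
  rw [cc_count_z m 0 e k (by norm_num) hk he, cc_count_z m 1 e k (by norm_num) hk he,
    cc_count_z m 2 e k (by norm_num) hk he, cc_count_z m 3 e k (by norm_num) hk he,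
    cc_count_z m 4 e k (by norm_num) hk he]
  interval_cases k <;> simp

end Pool.Agent.MVD.H40
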