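import Pool.Agent.Helper40_MVD.Base

/-!
Row KEY of squad MVD, part 1: the position of the main block and the images of the letters.
-/

namespace Pool.Agent.MVD.H40

open Pool.Agent.Helper14_MV Pool.Agent.Helper2_MV

/-! ### the copies -/

theorem star_append (P Q : List ℕ) : star (P ++ Q) = star P ++ star Q := by
  simp [star]

theorem star_range (m : ℕ) : star (List.range m) = List.range (5 * m) := by
  induction m with
  | zero => rfl
  | succ m ih =>
    rw [List.range_succ, star_append, ih, show 5 * (m + 1) = 5 * m + 5 by ring, List.range_add]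
    simp [star]

theorem star_perm {P Q : List ℕ} {m : ℕ} (h : (P ++ Q).Perm (List.range m)) :
    (star P ++ star Q).Perm (List.range (5 * m)) := by
  rw [← star_append, ← star_range]
  exact h.flatMap_right _

/-! ### counting -/

theorem count_flat (φ : ℕ → List ℕ) (c d : ℕ) (l : List ℕ) :
    l.count c * (φ c).count d ≤ (l.flatMap φ).count d := by
  induction l with
  | nil => simp
  | cons a l ih =>
    rw [List.flatMap_cons, List.count_append, List.count_cons]
    by_cases h : a = c
    · subst h
      simp only [BEq.rfl, if_true]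
      rw [Nat.add_mul, Nat.one_mul]
      omega
    · have h1 : (a == c) = false := beq_eq_false_iff_ne.2 h
      simp only [h1]
      simp
      omega

theorem bw_filter (B : ℕ → List ℕ) (R : List ℕ) (h : ∀ r ∈ R, SFr (B r)) :
    (Bw R B).filter (fun c => decide (c % 3 = 2)) = R.map (fun r => 3 * r + 2) := by
  induction R with
  | nil => rfl
  | cons r R ih =>
    have h1 : Bw (r :: R) B = B r ++ ([3 * r + 2] ++ Bw R B) := by simp [Bw]
    have h2 : (B r).filter (fun c => decide (c % 3 = 2)) = [] := by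
      rw [List.filter_eq_nil_iff]
      intro c hc
      rw [decide_eq_true_eq]
      exact h r (by simp) c hc
    rw [h1, List.filter_append, List.filter_append, h2,
      ih (fun r hr => h r (List.mem_cons_of_mem _ hr)), List.map_cons]
    have h3 : (3 * r + 2) % 3 = 2 := by omega
    simp [h3]

/-- every separator occurs at most once -/
theorem sep_once {P Q L : List ℕ} (hn : (P ++ Q).Nodup) (hL : SFr L) {d : ℕ} (hd : d % 3 = 2) :
    (Wm P Q L).count d ≤ 1 := by
  have h : Wm P Q L = Bw (P.map (fun e => e + 1) ++ 0 :: Q.map (fun e => e + 1)) (bl L) := rfl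
  have h1 : (Wm P Q L).count d =
      ((Wm P Q L).filter (fun c => decide (c % 3 = 2))).count d := by
    rw [List.count_filter]
    simpa using hd
  rw [h1, h, bw_filter]
  · have h2 : (P.map (fun e => e + 1) ++ 0 :: Q.map (fun e => e + 1)).Nodup := by
      have h3 : ((P ++ Q).map (fun e => e + 1)).Nodup := by
        refine hn.map ?_
        intro a b hab
        simpa using hab
      have h4 : (P.map (fun e => e + 1) ++ 0 :: Q.map (fun e => e + 1)).Perm
          (0 :: ((P ++ Q).map (fun e => e + 1))) := by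
        rw [List.map_append]
        exact List.perm_middle
      rw [h4.nodup_iff, List.nodup_cons]
      refine ⟨?_, h3⟩
      intro h5
      rw [List.mem_map] at h5
      obtain ⟨e, _, he⟩ := h5
      omega
    have h5 : ((P.map (fun e => e + 1) ++ 0 :: Q.map (fun e => e + 1)).map
        (fun r => 3 * r + 2)).Nodup := by
      refine h2.map ?_
      intro a b hab
      simp only at hab
      omega
    exact List.nodup_iff_count_le_one.1 h5 d
  · intro r _
    rw [bl]
    split_ifs with h6
    · exact hL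
    · intro c hc
      rw [List.mem_singleton] at hc
      omega

/-! ### factors without separators -/

theorem split_zero {S T R1 R2 : List ℕ} (hS : 0 ∉ S) (hT : 0 ∉ T)
    (h : S ++ 0 :: T = R1 ++ 0 :: R2) : R1 = S ∧ R2 = T := by
  rw [List.append_eq_append_iff] at h
  rcases h with ⟨x, h1, h2⟩ | ⟨x, h1, h2⟩
  · cases x with
    | nil =>
      rw [List.append_nil] at h1
      simp at h2
      exact ⟨h1, h2.symm⟩
    | cons a x =>
      rw [List.cons_append, List.cons.injEq] at h2
      exact absurd (by rw [h2.2]; simp) hT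
  · cases x with
    | nil =>
      rw [List.append_nil] at h1
      simp at h2
      exact ⟨h1.symm, h2⟩
    | cons a x =>
      rw [List.cons_append, List.cons.injEq] at h2
      exact absurd (by rw [h1, ← h2.1]; simp) hS

theorem loc (hFac : FacStmt) {S T L A X C : List ℕ} (hL : SFr L) (hX : SFr X) (hX0 : X ≠ [])
    (h : Wm S T L = A ++ (X ++ C)) :
    (∃ e ∈ S ++ T, X = [3 * e + 1]) ∨
      ∃ a c, L = a ++ (X ++ c) ∧ A = plc S ++ a ∧ C = c ++ 2 :: plc T := by
  have h0 : Wm S T L = Bw (S.map (fun e => e + 1) ++ 0 :: T.map (fun e => e + 1)) (bl L) := rfl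
  have hsf : ∀ r ∈ S.map (fun e => e + 1) ++ 0 :: T.map (fun e => e + 1), SFr (bl L r) := by
    intro r _
    rw [bl]
    split_ifs with h6
    · exact hL
    · intro c hc
      rw [List.mem_singleton] at hc
      omega
  rw [h0] at h
  obtain ⟨R1, r, R2, a, c, h1, h2, h3, h4⟩ := hFac _ (bl L) A X C hsf hX hX0 h
  by_cases hr : r = 0
  · right
    subst hr
    have hS0 : 0 ∉ S.map (fun e => e + 1) := by
      intro h5
      rw [List.mem_map] at h5
      obtain ⟨e, _, he⟩ := h5
      omega
    have hT0 : 0 ∉ T.map (fun e => e + 1) := by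
      intro h5
      rw [List.mem_map] at h5
      obtain ⟨e, _, he⟩ := h5
      omega
    obtain ⟨rfl, rfl⟩ := split_zero hS0 hT0 h1
    rw [bw_plc] at h3 h4
    refine ⟨a, c, ?_, h3, ?_⟩
    · rw [← h2, bl, if_pos rfl]
    · rw [h4]
  · left
    have hmem : r ∈ S.map (fun e => e + 1) ++ 0 :: T.map (fun e => e + 1) := by
      rw [h1]; simp
    rw [List.mem_append, List.mem_cons, List.mem_map, List.mem_map] at hmem
    have hr' : r - 1 ∈ S ++ T := by
      rw [List.mem_append]
      rcases hmem with ⟨e, he, rfl⟩ | h5 | ⟨e, he, rfl⟩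
      · left; simpa using he
      · exact absurd h5 hr
      · right; simpa using he
    refine ⟨r - 1, hr', ?_⟩
    rw [bl, if_neg hr] at h2
    have hlen := congrArg List.length h2
    simp only [List.length_append, List.length_cons, List.length_nil] at hlen
    have hX1 : 1 ≤ X.length := by
      rw [Nat.one_le_iff_ne_zero]
      intro h5
      exact hX0 (List.eq_nil_of_length_eq_zero h5)
    have ha : a = [] := List.eq_nil_of_length_eq_zero (by omega)
    have hc : c = [] := List.eq_nil_of_length_eq_zero (by omega)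
    rw [ha, hc, List.nil_append, List.append_nil] at h2
    exact h2.symm

/-! ### the setting -/

/-- the hypotheses of KEY -/
structure Cx (P Q : List ℕ) (m : ℕ) (g h : Equiv.Perm (Fin 4)) (φ : ℕ → List ℕ)
    (M N L : List ℕ) : Prop where
  hFac : FacStmt
  hm : 1 ≤ m
  hPQ : (P ++ Q).Perm (List.range m)
  hL : L.Perm (Lg m 1)
  hw : M ++ ((pw P Q m g).flatMap φ ++ N) = Wm (star P) (star Q) L
  F1 : ∀ j : Fin 4, ∀ k, (k = j.val ∨ k = j.val + 1) → ∀ e < m,
    Btw (3 * (h j).val) (3 * (5 * e + k) + 1) L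
  F2 : ∀ j : Fin 4, ∀ k < 5, ¬ (k = j.val ∨ k = j.val + 1) → ∃ e < m,
    ¬ Btw (3 * (h j).val) (3 * (5 * e + k) + 1) L
  hne : ∃ j : Fin 4, φ (3 * j.val) ≠ []

variable {P Q : List ℕ} {m : ℕ} {g h : Equiv.Perm (Fin 4)} {φ : ℕ → List ℕ} {M N L : List ℕ}

theorem sfL (hL : L.Perm (Lg m 1)) : SFr L := by
  intro c hc
  rcases mem_perm hL hc with ⟨l', _, rfl⟩ | ⟨e, he, k', hk', rfl⟩ <;> omega

theorem two_pw (hPQ : (P ++ Q).Perm (List.range m)) {c : ℕ} (hc : c ∈ Lg m g) :
    2 ≤ (pw P Q m g).count c := by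
  rw [pw, wm_eq]
  rcases mem_Lg hc with ⟨j, rfl⟩ | ⟨e, he, k, hk, rfl⟩
  · obtain ⟨U, X, gap, h1, _⟩ := Lg_dec m g j
    rw [h1]
    simp only [List.count_append, List.count_cons_self]
    omega
  · have h1 : 5 * e + k ∈ star P ++ star Q := by
      rw [(star_perm hPQ).mem_iff, List.mem_range]
      omega
    have h2 : 0 < (Lg m g).count (3 * (5 * e + k) + 1) := List.count_pos_iff.2 hc
    rw [List.count_append, List.count_append]
    rw [List.mem_append] at h1
    rcases h1 with h1 | h1
    · have h3 : 0 < (plc (star P)).count (3 * (5 * e + k) + 1) := by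
        rw [List.count_pos_iff, plc, List.mem_flatMap]
        exact ⟨_, h1, by simp⟩
      omega
    · have h3 : 0 < (2 :: plc (star Q)).count (3 * (5 * e + k) + 1) := by
        rw [List.count_pos_iff, List.mem_cons, plc, List.mem_flatMap]
        exact Or.inr ⟨_, h1, by simp⟩
      omega

/-- the images of the letters of the main block have no separators -/
theorem Cx.sfφ (H : Cx P Q m g h φ M N L) {c : ℕ} (hc : c ∈ Lg m g) : SFr (φ c) := by
  intro d hd h2
  have h3 := sep_once (L := L) ((star_perm H.hPQ).nodup_iff.2 List.nodup_range) (sfL H.hL) h2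
  rw [← H.hw, List.count_append, List.count_append] at h3
  have h4 := count_flat φ c d (pw P Q m g)
  have h5 := two_pw (g := g) H.hPQ hc
  have h6 : 1 ≤ (φ c).count d := List.count_pos_iff.2 hd
  have h7 : 2 * 1 ≤ (pw P Q m g).count c * (φ c).count d := Nat.mul_le_mul h5 h6
  omega

theorem flat_dec (φ : ℕ → List ℕ) (m : ℕ) (g : Equiv.Perm (Fin 4)) (j : Fin 4) :
    ∃ U X gap : List ℕ, (Lg m g).flatMap φ = U ++ (φ (3 * (g j).val) ++ (((cc m j.val).flatMap φ ++
      (gap.flatMap φ ++ (cc m (j.val + 1)).flatMap φ)) ++ (φ (3 * (g j).val) ++ X))) ∧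
      ∀ μ ∈ gap, ∃ i : Fin 4, μ = 3 * (g i).val ∧
        (i.val = j.val + 1 ∨ i.val + 1 = j.val) := by
  obtain ⟨U, X, gap, h1, h2⟩ := Lg_dec m g j
  refine ⟨U.flatMap φ, X.flatMap φ, gap, ?_, h2⟩
  rw [h1]
  simp only [List.flatMap_append, List.flatMap_cons]

/-- (0) the main block of `p_g` is mapped into the main block -/
theorem Cx.main (H : Cx P Q m g h φ M N L) :
    ∃ a c, L = a ++ ((Lg m g).flatMap φ ++ c) ∧
      M ++ (plc (star P)).flatMap φ = plc (star P) ++ a ∧
      φ 2 ++ ((plc (star Q)).flatMap φ ++ N) = c ++ 2 :: plc (star Q) := by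
  obtain ⟨j0, hj0⟩ := H.hne
  obtain ⟨U, X, gap, h1, _⟩ := flat_dec φ m g (g.symm j0)
  rw [Equiv.apply_symm_apply] at h1
  have hlen : 1 ≤ (φ (3 * j0.val)).length := by
    rw [Nat.one_le_iff_ne_zero]
    intro h5
    exact hj0 (List.eq_nil_of_length_eq_zero h5)
  have hF2 : 2 ≤ ((Lg m g).flatMap φ).length := by
    rw [h1]
    simp only [List.length_append]
    omega
  have hF0 : (Lg m g).flatMap φ ≠ [] := by
    intro h5
    rw [h5] at hF2
    simp at hF2
  have hsf : SFr ((Lg m g).flatMap φ) := by
    intro d hd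
    rw [List.mem_flatMap] at hd
    obtain ⟨c, hc, hd⟩ := hd
    exact H.sfφ hc d hd
  have hw : Wm (star P) (star Q) L = (M ++ (plc (star P)).flatMap φ) ++
      ((Lg m g).flatMap φ ++ (φ 2 ++ ((plc (star Q)).flatMap φ ++ N))) := by
    rw [← H.hw, pw, wm_eq]
    simp only [List.flatMap_append, List.flatMap_cons, List.append_assoc]
  rcases loc H.hFac (sfL H.hL) hsf hF0 hw with ⟨e, _, he⟩ | ⟨a, c, h2, h3, h4⟩
  · rw [he] at hF2
    simp at hF2
  · exact ⟨a, c, h2, h3, h4⟩

/-- the images of the letters `y` -/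
theorem Cx.yimg (H : Cx P Q m g h φ M N L) (j : Fin 4) :
    φ (3 * (g j).val) = [] ∨ ∃ j' : Fin 4, φ (3 * (g j).val) = [3 * (h j').val] := by
  obtain ⟨a, c, h1, _, _⟩ := H.main
  obtain ⟨U, X, gap, h2, _⟩ := flat_dec φ m g j
  set W := φ (3 * (g j).val) with hW
  set V := (cc m j.val).flatMap φ ++ (gap.flatMap φ ++ (cc m (j.val + 1)).flatMap φ) with hV
  rw [h2] at h1
  have hcnt : ∀ d ∈ W, (∃ l : Fin 4, d = 3 * l.val) ∧ W.count d = 1 := by
    intro d hd
    have h3 : 0 < W.count d := List.count_pos_iff.2 hd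
    have h4 : W.count d + W.count d ≤ L.count d := by
      rw [h1]
      simp only [List.count_append]
      omega
    have h5 : d ∈ L := by
      rw [← List.count_pos_iff]
      omega
    rcases mem_perm H.hL h5 with ⟨l', hl', rfl⟩ | ⟨e, he, k', hk', rfl⟩
    · rw [count_y H.hL hl'] at h4
      exact ⟨⟨⟨l', hl'⟩, rfl⟩, by omega⟩
    · rw [count_z H.hL he hk'] at h4
      omega
  have hh : ∀ l : Fin 4, ∃ b : Fin 4, h b = l := fun l => ⟨h.symm l, by simp⟩
  rcases hWe : W with _ | ⟨d, W1⟩
  · exact Or.inl rfl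
  · rcases W1 with _ | ⟨d', W2⟩
    · right
      obtain ⟨⟨l, hl⟩, _⟩ := hcnt d (by rw [hWe]; simp)
      obtain ⟨b, rfl⟩ := hh l
      exact ⟨b, by rw [hl]⟩
    · exfalso
      obtain ⟨⟨l, hl⟩, hc1⟩ := hcnt d (by rw [hWe]; simp)
      obtain ⟨⟨l', hl'⟩, _⟩ := hcnt d' (by rw [hWe]; simp)
      obtain ⟨b, rfl⟩ := hh l
      obtain ⟨b', rfl⟩ := hh l'
      have hdd : d ≠ d' := by
        rintro rfl
        rw [hWe] at hc1
        simp only [List.count_cons_self] at hc1
        omega
      have hbb : b.val ≠ b'.val := by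
        intro h3
        have : b = b' := Fin.ext h3
        subst this
        exact hdd (hl.trans hl'.symm)
      have hd2 : L.count d = 2 := by rw [hl]; exact count_y H.hL (Fin.isLt _)
      have hd2' : L.count d' = 2 := by rw [hl']; exact count_y H.hL (Fin.isLt _)
      rw [hWe] at h1
      have e1 : L = (a ++ U) ++ d :: ((d' :: (W2 ++ V)) ++ d :: (d' :: (W2 ++ (X ++ c)))) := by
        rw [h1]; simp only [List.append_assoc, List.cons_append]
      have e2 : L = (a ++ U ++ [d]) ++ d' :: ((W2 ++ (V ++ [d])) ++ d' :: (W2 ++ (X ++ c))) := by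
        rw [h1]; simp only [List.append_assoc, List.cons_append, List.nil_append]
      have k1 : ∀ z, z ≠ d' → Btw d z L → Btw d' z L := by
        intro z hz h3
        rw [e1] at h3 hd2
        have h4 := two_mem hd2 h3
        rw [List.mem_cons] at h4
        rcases h4 with h4 | h4
        · exact absurd h4 hz
        · refine ⟨_, _, _, e2, ?_⟩
          rw [List.mem_append] at h4 ⊢
          rcases h4 with h4 | h4
          · exact Or.inl h4
          · exact Or.inr (List.mem_append_left _ h4)
      have k2 : ∀ z, z ≠ d → Btw d' z L → Btw d z L := by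
        intro z hz h3
        rw [e2] at h3 hd2'
        have h4 := two_mem hd2' h3
        rw [List.mem_append, List.mem_append, List.mem_singleton] at h4
        rcases h4 with h4 | h4 | h4
        · exact ⟨_, _, _, e1, by simp [h4]⟩
        · exact ⟨_, _, _, e1, by simp [h4]⟩
        · exact absurd h4 hz
      have hb := b.isLt
      have hb' := b'.isLt
      rcases Nat.lt_or_gt_of_ne hbb with h3 | h3
      · obtain ⟨e, he, h4⟩ := H.F2 b' b.val (by omega) (by omega)
        rw [← hl'] at h4
        refine h4 (k1 _ (by omega) ?_)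
        rw [hl]
        exact H.F1 b b.val (Or.inl rfl) e he
      · obtain ⟨e, he, h4⟩ := H.F2 b b'.val (by omega) (by omega)
        rw [← hl] at h4
        refine h4 (k2 _ (by omega) ?_)
        rw [hl']
        exact H.F1 b' b'.val (Or.inl rfl) e he

theorem mem_star_lt (hPQ : (P ++ Q).Perm (List.range m)) {e : ℕ} (he : e ∈ star P ++ star Q) :
    e < 5 * m := by
  rw [(star_perm hPQ).mem_iff, List.mem_range] at he
  exact he

theorem plc_split (S1 S2 : List ℕ) (E : ℕ) :
    plc (S1 ++ E :: S2) = plc S1 ++ (3 * E + 1) :: (3 * (E + 1) + 2) :: plc S2 := by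
  simp [plc]

/-- (1) the images of the letters of the chain -/
theorem Cx.zimg (H : Cx P Q m g h φ M N L) {e k : ℕ} (he : e < m) (hk : k < 5)
    (hmem : 3 * (5 * e + k) + 1 ∈ Lg m g) :
    (∃ E' < 5 * m, φ (3 * (5 * e + k) + 1) = [3 * E' + 1]) ∨
      ∀ d ∈ φ (3 * (5 * e + k) + 1), 2 ≤ L.count d := by
  obtain ⟨a, c, h1, h2, h3⟩ := H.main
  by_cases hW0 : φ (3 * (5 * e + k) + 1) = []
  · right
    rw [hW0]
    simp
  have hsf := H.sfφ hmem
  have hF : ∀ d ∈ φ (3 * (5 * e + k) + 1), 0 < ((Lg m g).flatMap φ).count d := by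
    intro d hd
    rw [List.count_pos_iff, List.mem_flatMap]
    exact ⟨_, hmem, hd⟩
  have h4 : 5 * e + k ∈ star P ++ star Q := by
    rw [(star_perm H.hPQ).mem_iff, List.mem_range]
    omega
  generalize 5 * e + k = E at *
  have hw : Wm (star P) (star Q) L = (M ++ (plc (star P)).flatMap φ) ++
      ((Lg m g).flatMap φ ++ (φ 2 ++ ((plc (star Q)).flatMap φ ++ N))) := by
    rw [← H.hw, pw, wm_eq]
    simp only [List.flatMap_append, List.flatMap_cons, List.append_assoc]
  rw [List.mem_append] at h4
  rcases h4 with h4 | h4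
  · obtain ⟨S1, S2, hS⟩ := List.append_of_mem h4
    have h5 : Wm (star P) (star Q) L = (M ++ (plc S1).flatMap φ) ++ (φ (3 * E + 1) ++
        (φ (3 * (E + 1) + 2) ++ ((plc S2).flatMap φ ++
      ((Lg m g).flatMap φ ++ (φ 2 ++ ((plc (star Q)).flatMap φ ++ N)))))) := by
      rw [hw]
      conv_lhs => rw [hS, plc_split]
      simp only [List.flatMap_append, List.flatMap_cons, List.append_assoc]
    rcases loc H.hFac (sfL H.hL) hsf hW0 h5 with ⟨e', he', h6⟩ | ⟨a', c', h6, h7, h8⟩
    · exact Or.inl ⟨e', mem_star_lt H.hPQ he', h6⟩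
    · right
      intro d hd
      have h9 : M ++ (plc (star P)).flatMap φ = plc (star P) ++ (a' ++ (φ (3 * E + 1) ++
          (φ (3 * (E + 1) + 2) ++ (plc S2).flatMap φ))) := by
        have h10 : M ++ (plc (star P)).flatMap φ = (M ++ (plc S1).flatMap φ) ++ (φ (3 * E + 1) ++
          (φ (3 * (E + 1) + 2) ++ (plc S2).flatMap φ)) := by
          conv_lhs => rw [hS, plc_split]
          simp only [List.flatMap_append, List.flatMap_cons, List.append_assoc]
        rw [h10, h7]
        simp only [List.append_assoc]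
      rw [h2, List.append_cancel_left_eq] at h9
      have h11 := hF d hd
      have h12 : 0 < (φ (3 * E + 1)).count d := List.count_pos_iff.2 hd
      rw [h1, h9]
      simp only [List.count_append]
      omega
  · obtain ⟨S1, S2, hS⟩ := List.append_of_mem h4
    have h5 : Wm (star P) (star Q) L = (M ++ ((plc (star P)).flatMap φ ++ ((Lg m g).flatMap φ ++
        (φ 2 ++ (plc S1).flatMap φ)))) ++ (φ (3 * E + 1) ++
        (φ (3 * (E + 1) + 2) ++ ((plc S2).flatMap φ ++ N))) := by
      rw [hw]
      conv_lhs => rw [hS, plc_split]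
      simp only [List.flatMap_append, List.flatMap_cons, List.append_assoc]
    rcases loc H.hFac (sfL H.hL) hsf hW0 h5 with ⟨e', he', h6⟩ | ⟨a', c', h6, h7, h8⟩
    · exact Or.inl ⟨e', mem_star_lt H.hPQ he', h6⟩
    · right
      intro d hd
      have h9 : φ 2 ++ ((plc (star Q)).flatMap φ ++ N) = (φ 2 ++ ((plc S1).flatMap φ ++
          (φ (3 * E + 1) ++ c'))) ++ 2 :: plc (star Q) := by
        have h10 : φ 2 ++ ((plc (star Q)).flatMap φ ++ N) = φ 2 ++ ((plc S1).flatMap φ ++
          (φ (3 * E + 1) ++ (φ (3 * (E + 1) + 2) ++ ((plc S2).flatMap φ ++ N)))) := by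
          conv_lhs => rw [hS, plc_split]
          simp only [List.flatMap_append, List.flatMap_cons, List.append_assoc]
        rw [h10, h8]
        simp only [List.append_assoc]
      rw [h3, List.append_cancel_right_eq] at h9
      have h11 := hF d hd
      have h12 : 0 < (φ (3 * E + 1)).count d := List.count_pos_iff.2 hd
      rw [h1, h9]
      simp only [List.count_append]
      omega

end Pool.Agent.MVD.H40
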