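import Pool.Agent.Helper40_MVD.KeyA

/-!
Row KEY of squad MVD, part 2: transport of the copies, neighbours, conclusion.
-/

namespace Pool.Agent.MVD.H40

open Pool.Agent.Helper14_MV Pool.Agent.Helper2_MV

/-! ### lists -/

theorem flat_len_le (f : ℕ → List ℕ) (l : List ℕ) (h : ∀ c ∈ l, (f c).length ≤ 1) :
    (l.flatMap f).length ≤ l.length := by
  induction l with
  | nil => simp
  | cons a l ih =>
    have h1 := ih (fun c hc => h c (List.mem_cons_of_mem _ hc))
    have h2 := h a (by simp)
    rw [List.flatMap_cons, List.length_append, List.length_cons]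
    omega

theorem flat_len_eq (f : ℕ → List ℕ) (l : List ℕ) (h : ∀ c ∈ l, (f c).length ≤ 1)
    (h2 : l.length ≤ (l.flatMap f).length) : ∀ c ∈ l, (f c).length = 1 := by
  induction l with
  | nil => intro c hc; simp at hc
  | cons a l ih =>
    have h3 : ∀ c ∈ l, (f c).length ≤ 1 := fun c hc => h c (List.mem_cons_of_mem _ hc)
    have h4 := flat_len_le f l h3
    have h5 := h a (by simp)
    rw [List.flatMap_cons, List.length_append, List.length_cons] at h2
    intro c hc
    rw [List.mem_cons] at hc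
    rcases hc with rfl | hc
    · omega
    · exact ih h3 (by omega) c hc

theorem sub_flat (f : ℕ → List ℕ) {l l' : List ℕ} (h : l.Sublist l') :
    (l.flatMap f).Sublist (l'.flatMap f) := by
  induction h with
  | slnil => exact List.Sublist.refl _
  | cons a _ ih =>
    rw [List.flatMap_cons]
    exact ih.trans (List.sublist_append_right _ _)
  | cons_cons a _ ih =>
    rw [List.flatMap_cons, List.flatMap_cons]
    exact List.Sublist.append (List.Sublist.refl _) ih

theorem flat_inj (f f' : ℕ → List ℕ) (l : List ℕ) (hlen : ∀ c ∈ l, (f c).length = (f' c).length)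
    (h : l.flatMap f = l.flatMap f') : ∀ c ∈ l, f c = f' c := by
  induction l with
  | nil => intro c hc; simp at hc
  | cons a l ih =>
    rw [List.flatMap_cons, List.flatMap_cons] at h
    obtain ⟨h1, h2⟩ := List.append_inj h (hlen a (by simp))
    intro c hc
    rw [List.mem_cons] at hc
    rcases hc with rfl | hc
    · exact h1
    · exact ih (fun c hc => hlen c (List.mem_cons_of_mem _ hc)) h2 c hc

theorem cut_uniq {Y : ℕ} {u v r s : List ℕ} (hc : (u ++ Y :: r).count Y = 1)
    (h : u ++ Y :: r = v ++ Y :: s) : u = v ∧ r = s := by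
  have hc' := hc
  rw [h] at hc'
  simp only [List.count_append, List.count_cons_self] at hc hc'
  have hu : Y ∉ u := List.count_eq_zero.1 (by omega)
  have hv : Y ∉ v := List.count_eq_zero.1 (by omega)
  clear hc hc'
  revert v
  induction u with
  | nil =>
    intro v he hv
    cases v with
    | nil => simpa using he
    | cons d v =>
      rw [List.nil_append, List.cons_append, List.cons.injEq] at he
      exact absurd (by simp [he.1]) hv
  | cons c u ih =>
    intro v he hv
    cases v with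
    | nil =>
      rw [List.nil_append, List.cons_append, List.cons.injEq] at he
      exact absurd (by simp [he.1]) hu
    | cons d v =>
      rw [List.cons_append, List.cons_append, List.cons.injEq] at he
      obtain ⟨rfl, he⟩ := he
      obtain ⟨rfl, h⟩ := ih (fun h => hu (List.mem_cons_of_mem _ h)) he
        (fun h => hv (List.mem_cons_of_mem _ h))
      exact ⟨rfl, h⟩

/-- a letter between two unique letters -/
theorem uniq_mid {z1 z2 Y : ℕ} {u v w : List ℕ}
    (h1 : (u ++ z1 :: (v ++ z2 :: w)).count z1 = 1)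
    (h2 : (u ++ z1 :: (v ++ z2 :: w)).count z2 = 1)
    (h : [z1, Y, z2].Sublist (u ++ z1 :: (v ++ z2 :: w))) : Y ∈ v := by
  rw [List.cons_sublist_iff] at h
  obtain ⟨r1, r2, h3, h4, h5⟩ := h
  obtain ⟨p1, p2, rfl⟩ := List.append_of_mem h4
  have h6 : u ++ z1 :: (v ++ z2 :: w) = p1 ++ z1 :: (p2 ++ r2) := by rw [h3]; simp
  obtain ⟨_, h7⟩ := cut_uniq h1 h6
  have h8 : [Y, z2].Sublist (v ++ z2 :: w) := by
    rw [h7]
    exact h5.trans (List.sublist_append_right _ _)
  rw [List.cons_sublist_iff] at h8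
  obtain ⟨s1, s2, h9, h10, h11⟩ := h8
  rw [List.singleton_sublist] at h11
  obtain ⟨q1, q2, rfl⟩ := List.append_of_mem h11
  have h12' : (v ++ z2 :: w).count z2 = 1 := by
    have h13 : z2 ∈ v ++ z2 :: w := by simp
    have h14 := List.count_pos_iff.2 h13
    rw [List.count_append, List.count_cons] at h2
    omega
  have h15 : v ++ z2 :: w = (s1 ++ q1) ++ z2 :: q2 := by rw [h9]; simp
  obtain ⟨h16, _⟩ := cut_uniq h12' h15
  rw [h16]
  exact List.mem_append_left _ h10

theorem ord3R {z1 z2 Y : ℕ} {L : List ℕ} (h : [z1, z2].Sublist L) (hY : [Y, z2, Y].Sublist L)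
    (hn : ¬ [Y, z1, Y].Sublist L) (h2 : L.count z2 = 1) (hY1 : Y ≠ z1) :
    [z1, Y, z2].Sublist L := by
  rw [List.cons_sublist_iff] at h
  obtain ⟨r1, r2, rfl, h4, h5⟩ := h
  rw [List.singleton_sublist] at h5
  obtain ⟨p1, p2, rfl⟩ := List.append_of_mem h5
  have e0 : r1 ++ (p1 ++ z2 :: p2) = (r1 ++ p1) ++ z2 :: p2 := by simp
  rw [e0] at hY hn h2 ⊢
  rw [← btw_iff] at hY
  obtain ⟨a, b, c, h6, h7⟩ := hY
  obtain ⟨b1, b2, rfl⟩ := List.append_of_mem h7
  have h8 : (r1 ++ p1) ++ z2 :: p2 = (a ++ Y :: b1) ++ z2 :: (b2 ++ Y :: c) := by rw [h6]; simp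
  obtain ⟨h9, h10⟩ := cut_uniq h2 h8
  have hz1 : z1 ∈ a ++ Y :: b1 := by rw [← h9]; exact List.mem_append_left _ h4
  rw [h8] at hn ⊢
  rw [List.mem_append, List.mem_cons] at hz1
  rcases hz1 with h11 | h11 | h11
  · obtain ⟨a1, a2, rfl⟩ := List.append_of_mem h11
    refine List.Sublist.trans ?_ (List.Sublist.append (List.Sublist.refl _)
      (List.Sublist.cons_cons z2 (List.nil_sublist _)))
    have e1 : [z1, Y, z2] = [z1, Y] ++ [z2] := rfl
    rw [e1]
    refine List.Sublist.append ?_ (List.Sublist.refl _)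
    rw [List.append_assoc]
    refine List.Sublist.trans ?_ (List.sublist_append_right _ _)
    rw [List.cons_append]
    refine List.Sublist.cons_cons z1 ?_
    exact List.Sublist.trans (List.Sublist.cons_cons Y (List.nil_sublist _))
      (List.sublist_append_right _ _)
  · exact absurd h11.symm hY1
  · exfalso
    apply hn
    rw [← btw_iff]
    refine ⟨a, b1 ++ z2 :: b2, c, by simp, ?_⟩
    exact List.mem_append_left _ h11

theorem ord3L {z1 z2 Y : ℕ} {L : List ℕ} (h : [z1, z2].Sublist L) (hY : [Y, z1, Y].Sublist L)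
    (hn : ¬ [Y, z2, Y].Sublist L) (h1 : L.count z1 = 1) (hY2 : Y ≠ z2) :
    [z1, Y, z2].Sublist L := by
  have e : [z1, Y, z2] = [z2, Y, z1].reverse := rfl
  rw [e, ← List.reverse_reverse L, List.reverse_sublist]
  refine ord3R ?_ ?_ ?_ ?_ hY2
  · have := List.reverse_sublist.2 h
    simpa using this
  · have := List.reverse_sublist.2 hY
    simpa using this
  · intro h3
    apply hn
    have := List.reverse_sublist.2 h3
    simpa using this
  · rw [List.count_reverse]; exact h1

/-! ### the copies `j`, `j + 1` -/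

/-- the letters of the copies `j` and `j + 1` -/
def TT (j : ℕ) (c : ℕ) : Bool := decide (c % 3 = 1 ∧ ((c / 3) % 5 = j ∨ (c / 3) % 5 = j + 1))

theorem TT_z {j k i : ℕ} (hk : k < 5) :
    TT j (3 * (5 * i + k) + 1) = decide (k = j ∨ k = j + 1) := by
  unfold TT
  rw [decide_eq_decide]
  constructor
  · rintro ⟨_, h⟩
    omega
  · intro h
    exact ⟨by omega, by omega⟩

theorem TT_s (j x : ℕ) : TT j (3 * x + 2) = false := by
  unfold TT
  rw [decide_eq_false_iff_not]
  omega

theorem TT_y (j x : ℕ) : TT j (3 * x) = false := by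
  unfold TT
  rw [decide_eq_false_iff_not]
  omega

theorem plc_append (S T : List ℕ) : plc (S ++ T) = plc S ++ plc T := by
  simp [plc]

theorem star_cons (i : ℕ) (P : List ℕ) :
    star (i :: P) = [5 * i + 0, 5 * i + 1, 5 * i + 2, 5 * i + 3, 5 * i + 4] ++ star P := by
  rw [star, List.flatMap_cons]
  rfl

theorem plc_filter {j : ℕ} (hj : j < 4) (P : List ℕ) : (plc (star P)).filter (TT j) =
    P.flatMap (fun i => [3 * (5 * i + j) + 1, 3 * (5 * i + (j + 1)) + 1]) := by
  induction P with
  | nil => rfl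
  | cons i P ih =>
    rw [star_cons, plc_append, List.filter_append, ih, List.flatMap_cons]
    congr 1
    simp only [plc, List.flatMap_cons, List.flatMap_nil, List.append_nil, List.cons_append,
      List.nil_append, List.filter_cons, List.filter_nil, TT_s,
      TT_z (show 0 < 5 by norm_num), TT_z (show 1 < 5 by norm_num), TT_z (show 2 < 5 by norm_num),
      TT_z (show 3 < 5 by norm_num), TT_z (show 4 < 5 by norm_num)]
    interval_cases j <;> simp

variable {P Q : List ℕ} {m : ℕ} {g h : Equiv.Perm (Fin 4)} {φ : ℕ → List ℕ} {M N L : List ℕ}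

theorem cc_mem_Lg {m c : ℕ} {g : Equiv.Perm (Fin 4)} {j : Fin 4}
    (hc : c ∈ cc m j.val ∨ c ∈ cc m (j.val + 1)) : c ∈ Lg m g := by
  obtain ⟨U, X, gap, h1, _⟩ := Lg_dec m g j
  rw [h1]
  simp only [List.mem_append, List.mem_cons]
  tauto

/-- the images of the letters of the copies are letters of the copies -/
theorem Cx.copy (H : Cx P Q m g h φ M N L) {j j' : Fin 4}
    (hj : φ (3 * (g j).val) = [3 * (h j').val]) :
    (∀ c, c ∈ cc m j.val ∨ c ∈ cc m (j.val + 1) → ∃ d, φ c = [d] ∧ TT j'.val d = true) ∧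
      ∀ a c, L = a ++ ((Lg m g).flatMap φ ++ c) → ∀ d, TT j'.val d = true → d ∉ a ∧ d ∉ c := by
  have hj4 := j.isLt
  have hj4' := j'.isLt
  obtain ⟨a, c, h1, _, _⟩ := H.main
  obtain ⟨U, X, gap, h2, hgap⟩ := flat_dec φ m g j
  rw [hj] at h2
  have hgY : ∀ d ∈ gap.flatMap φ, TT j'.val d = false := by
    intro d hd
    rw [List.mem_flatMap] at hd
    obtain ⟨μ, hμ, hd⟩ := hd
    obtain ⟨i, rfl, _⟩ := hgap μ hμ
    rcases H.yimg i with h3 | ⟨b, h3⟩
    · rw [h3] at hd
      simp at hd
    · rw [h3, List.mem_singleton] at hd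
      rw [hd]
      exact TT_y _ _
  have hLY : L.count (3 * (h j').val) = 2 := count_y H.hL (Fin.isLt _)
  have hV : ∀ e < m, ∀ k, (k = j'.val ∨ k = j'.val + 1) → 3 * (5 * e + k) + 1 ∈
      (cc m j.val).flatMap φ ++ (gap.flatMap φ ++ (cc m (j.val + 1)).flatMap φ) := by
    intro e he k hk
    have h3 := H.F1 j' k hk e he
    have e1 : L = (a ++ U) ++ 3 * (h j').val :: (((cc m j.val).flatMap φ ++
        (gap.flatMap φ ++ (cc m (j.val + 1)).flatMap φ)) ++ 3 * (h j').val :: (X ++ c)) := by
      rw [h1, h2]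
      simp only [List.append_assoc, List.cons_append, List.nil_append]
    rw [e1] at h3 hLY
    exact two_mem hLY h3
  have hTl : ∀ d ∈ L, TT j'.val d = true → ∃ e < m, ∃ k, (k = j'.val ∨ k = j'.val + 1) ∧
      d = 3 * (5 * e + k) + 1 := by
    intro d hd ht
    rcases mem_perm H.hL hd with ⟨l', _, rfl⟩ | ⟨e, he, k, hk, rfl⟩
    · rw [TT_y] at ht
      exact absurd ht (by simp)
    · rw [TT_z hk, decide_eq_true_eq] at ht
      exact ⟨e, he, k, ht, rfl⟩
  have hcc : ∀ c, c ∈ cc m j.val ∨ c ∈ cc m (j.val + 1) → ∃ e < m, ∃ k < 5,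
      c = 3 * (5 * e + k) + 1 := by
    intro c hc
    rcases hc with hc | hc
    · obtain ⟨e, he, h3⟩ := mem_cc.1 hc
      exact ⟨e, he, j.val, by omega, h3⟩
    · obtain ⟨e, he, h3⟩ := mem_cc.1 hc
      exact ⟨e, he, j.val + 1, by omega, h3⟩
  have hzi : ∀ c, c ∈ cc m j.val ∨ c ∈ cc m (j.val + 1) →
      (∃ E' < 5 * m, φ c = [3 * E' + 1]) ∨ ∀ d ∈ φ c, TT j'.val d = false := by
    intro c hc
    obtain ⟨e, he, k, hk, rfl⟩ := hcc c hc
    have hmem : 3 * (5 * e + k) + 1 ∈ Lg m g := cc_mem_Lg hc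
    rcases H.zimg he hk hmem with h3 | h3
    · exact Or.inl h3
    · right
      intro d hd
      have h4 := h3 d hd
      by_contra h5
      rw [Bool.not_eq_false] at h5
      have h6 : d ∈ L := by
        rw [← List.count_pos_iff]
        omega
      obtain ⟨e', he', k', hk', rfl⟩ := hTl d h6 h5
      rw [count_z H.hL he' (by omega)] at h4
      omega
  constructor
  · -- counting
    have hlen1 : ∀ c ∈ cc m j.val ++ cc m (j.val + 1),
        ((φ c).filter (TT j'.val)).length ≤ 1 := by
      intro c hc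
      rw [List.mem_append] at hc
      rcases hzi c hc with ⟨E', _, h3⟩ | h3
      · rw [h3]
        exact (List.length_filter_le _ _).trans (by simp)
      · have h4 : (φ c).filter (TT j'.val) = [] := by
          rw [List.filter_eq_nil_iff]
          intro d hd
          rw [h3 d hd]
          simp
        rw [h4]
        simp
    have hlen2 : (cc m j.val ++ cc m (j.val + 1)).length ≤
        ((cc m j.val ++ cc m (j.val + 1)).flatMap (fun c => (φ c).filter (TT j'.val))).length := by
      have h3 : (cc m j.val ++ cc m (j.val + 1)).length =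
          (cc m j'.val ++ cc m (j'.val + 1)).length := by
        simp only [List.length_append, cc_length]
      rw [h3]
      have hnod : (cc m j'.val ++ cc m (j'.val + 1)).Nodup := by
        rw [List.nodup_iff_count_le_one]
        intro d
        by_cases hd : d ∈ cc m j'.val ++ cc m (j'.val + 1)
        · rw [List.mem_append] at hd
          rw [List.count_append]
          rcases hd with hd | hd
          · obtain ⟨e, he, rfl⟩ := mem_cc.1 hd
            rw [cc_count_z m _ e _ (by omega) (by omega) he,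
              cc_count_z m _ e _ (by omega) (by omega) he, if_pos rfl, if_neg (by omega)]
          · obtain ⟨e, he, rfl⟩ := mem_cc.1 hd
            rw [cc_count_z m _ e _ (by omega) (by omega) he,
              cc_count_z m _ e _ (by omega) (by omega) he, if_pos rfl, if_neg (by omega)]
        · rw [List.count_eq_zero.2 hd]
          omega
      refine (List.Nodup.subperm hnod ?_).length_le
      intro d hd
      rw [List.mem_append] at hd
      obtain ⟨e, he, k, hk, rfl⟩ : ∃ e < m, ∃ k, (k = j'.val ∨ k = j'.val + 1) ∧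
          d = 3 * (5 * e + k) + 1 := by
        rcases hd with hd | hd
        · obtain ⟨e, he, rfl⟩ := mem_cc.1 hd
          exact ⟨e, he, _, Or.inl rfl, rfl⟩
        · obtain ⟨e, he, rfl⟩ := mem_cc.1 hd
          exact ⟨e, he, _, Or.inr rfl, rfl⟩
      have h4 := hV e he k hk
      have h5 : TT j'.val (3 * (5 * e + k) + 1) = true := by
        rw [TT_z (by omega), decide_eq_true_eq]
        exact hk
      rw [List.mem_append, List.mem_append] at h4
      rw [List.flatMap_append, List.mem_append]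
      have key : ∀ l : List ℕ, 3 * (5 * e + k) + 1 ∈ l.flatMap φ →
          3 * (5 * e + k) + 1 ∈ l.flatMap (fun c => (φ c).filter (TT j'.val)) := by
        intro l hl
        rw [List.mem_flatMap] at hl ⊢
        obtain ⟨c, hc, hl⟩ := hl
        exact ⟨c, hc, List.mem_filter.2 ⟨hl, h5⟩⟩
      rcases h4 with h4 | h4 | h4
      · exact Or.inl (key _ h4)
      · rw [hgY _ h4] at h5
        exact absurd h5 (by simp)
      · exact Or.inr (key _ h4)
    have hone := flat_len_eq _ _ hlen1 hlen2
    intro c hc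
    have h3 := hone c (List.mem_append.2 hc)
    obtain ⟨d, hd⟩ := List.length_eq_one_iff.1 h3
    have h4 : d ∈ (φ c).filter (TT j'.val) := by rw [hd]; simp
    rw [List.mem_filter] at h4
    rcases hzi c hc with ⟨E', _, h5⟩ | h5
    · rw [h5, List.mem_singleton] at h4
      exact ⟨d, by rw [h5, h4.1], h4.2⟩
    · rw [h5 d h4.1] at h4
      exact absurd h4.2 (by simp)
  · intro a' c' h3 d hd
    have hF : ∀ e < m, ∀ k, (k = j'.val ∨ k = j'.val + 1) →
        0 < ((Lg m g).flatMap φ).count (3 * (5 * e + k) + 1) := by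
      intro e he k hk
      have h4 := List.count_pos_iff.2 (hV e he k hk)
      rw [h2]
      simp only [List.count_append] at h4 ⊢
      omega
    constructor
    · intro h4
      obtain ⟨e, he, k, hk, rfl⟩ := hTl d (by rw [h3]; simp [h4]) hd
      have h5 := hF e he k hk
      have h6 := List.count_pos_iff.2 h4
      have h7 := count_z H.hL he (show k < 5 by omega)
      rw [h3, List.count_append, List.count_append] at h7
      omega
    · intro h4
      obtain ⟨e, he, k, hk, rfl⟩ := hTl d (by rw [h3]; simp [h4]) hd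
      have h5 := hF e he k hk
      have h6 := List.count_pos_iff.2 h4
      have h7 := count_z H.hL he (show k < 5 by omega)
      rw [h3, List.count_append, List.count_append] at h7
      omega

/-- the order of the places -/
theorem order_places {φ : ℕ → List ℕ} {j j' : ℕ} (hj : j < 4) (hj' : j' < 4) {S u v x y : List ℕ}
    (h1 : u ++ ((plc (star S)).flatMap φ ++ v) = x ++ (plc (star S) ++ y))
    (hx : ∀ d ∈ x, TT j' d = false) (hy : ∀ d ∈ y, TT j' d = false)
    (h2 : ∀ i ∈ S, (∃ d, φ (3 * (5 * i + j) + 1) = [d] ∧ TT j' d = true) ∧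
      ∃ d, φ (3 * (5 * i + (j + 1)) + 1) = [d] ∧ TT j' d = true) :
    ∀ i ∈ S, φ (3 * (5 * i + j) + 1) = [3 * (5 * i + j') + 1] ∧
      φ (3 * (5 * i + (j + 1)) + 1) = [3 * (5 * i + (j' + 1)) + 1] := by
  have hx0 : x.filter (TT j') = [] := by
    rw [List.filter_eq_nil_iff]
    intro d hd
    rw [hx d hd]
    simp
  have hy0 : y.filter (TT j') = [] := by
    rw [List.filter_eq_nil_iff]
    intro d hd
    rw [hy d hd]
    simp
  have h3 := congrArg (List.filter (TT j')) h1
  rw [List.filter_append x, List.filter_append (plc (star S)) y, hx0, hy0, List.nil_append,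
    List.append_nil, plc_filter hj'] at h3
  have h4 : ((plc (star S)).filter (TT j)).Sublist (plc (star S)) := List.filter_sublist
  rw [plc_filter hj] at h4
  have h5 := sub_flat φ h4
  rw [List.flatMap_assoc] at h5
  have h6 : ∀ i ∈ S, (([3 * (5 * i + j) + 1, 3 * (5 * i + (j + 1)) + 1]).flatMap φ).filter
      (TT j') = ([3 * (5 * i + j) + 1, 3 * (5 * i + (j + 1)) + 1]).flatMap φ ∧
      (([3 * (5 * i + j) + 1, 3 * (5 * i + (j + 1)) + 1]).flatMap φ).length = 2 := by
    intro i hi
    obtain ⟨⟨d, hd, ht⟩, d', hd', ht'⟩ := h2 i hi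
    simp [hd, hd', ht, ht']
  have h7 := h5.filter (TT j')
  rw [List.filter_flatMap] at h7
  have h8 : S.flatMap (fun i => (([3 * (5 * i + j) + 1, 3 * (5 * i + (j + 1)) + 1]).flatMap
      φ).filter (TT j')) =
      S.flatMap (fun i => ([3 * (5 * i + j) + 1, 3 * (5 * i + (j + 1)) + 1]).flatMap φ) := by
    rw [List.flatMap_def, List.flatMap_def]
    congr 1
    exact List.map_congr_left (fun i hi => (h6 i hi).1)
  rw [h8] at h7
  have h9 : ((plc (star S)).flatMap φ).Sublist (u ++ ((plc (star S)).flatMap φ ++ v)) :=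
    (List.sublist_append_left _ _).trans (List.sublist_append_right _ _)
  have h10 := h7.trans (h9.filter (TT j'))
  rw [h3] at h10
  have h11 : (S.flatMap (fun i =>
      ([3 * (5 * i + j) + 1, 3 * (5 * i + (j + 1)) + 1]).flatMap φ)).length =
      (S.flatMap (fun i => [3 * (5 * i + j') + 1, 3 * (5 * i + (j' + 1)) + 1])).length := by
    rw [List.length_flatMap, List.length_flatMap]
    congr 1
    refine List.map_congr_left (fun i hi => ?_)
    rw [(h6 i hi).2]
    rfl
  have h12 := h10.eq_of_length h11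
  have h13 := flat_inj _ _ S (fun i hi => by rw [(h6 i hi).2]; rfl) h12
  intro i hi
  have h14 := h13 i hi
  obtain ⟨⟨d, hd, _⟩, d', hd', _⟩ := h2 i hi
  rw [hd, hd']
  simp only [List.flatMap_cons, List.flatMap_nil, hd, hd', List.cons_append, List.nil_append,
    List.append_nil, List.cons.injEq, and_true] at h14
  rw [h14.1, h14.2]
  exact ⟨rfl, rfl⟩

/-- (2) transport of the copies -/
theorem Cx.transp (H : Cx P Q m g h φ M N L) {j j' : Fin 4}
    (hj : φ (3 * (g j).val) = [3 * (h j').val]) : ∀ i < m,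
      φ (3 * (5 * i + j.val) + 1) = [3 * (5 * i + j'.val) + 1] ∧
        φ (3 * (5 * i + (j.val + 1)) + 1) = [3 * (5 * i + (j'.val + 1)) + 1] := by
  have hj4 := j.isLt
  have hj4' := j'.isLt
  obtain ⟨a, c, h1, h2, h3⟩ := H.main
  obtain ⟨hA, hB⟩ := H.copy hj
  have hac := hB a c h1
  have hlt : ∀ i, i ∈ P ++ Q ↔ i < m := by
    intro i
    rw [H.hPQ.mem_iff, List.mem_range]
  have hS : ∀ i < m, (∃ d, φ (3 * (5 * i + j.val) + 1) = [d] ∧ TT j'.val d = true) ∧
      ∃ d, φ (3 * (5 * i + (j.val + 1)) + 1) = [d] ∧ TT j'.val d = true := by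
    intro i hi
    exact ⟨hA _ (Or.inl (mem_cc.2 ⟨i, hi, rfl⟩)), hA _ (Or.inr (mem_cc.2 ⟨i, hi, rfl⟩))⟩
  have hfa : ∀ d ∈ a, TT j'.val d = false := by
    intro d hd
    by_contra h4
    rw [Bool.not_eq_false] at h4
    exact (hac d h4).1 hd
  have hfc : ∀ d ∈ c, TT j'.val d = false := by
    intro d hd
    by_contra h4
    rw [Bool.not_eq_false] at h4
    exact (hac d h4).2 hd
  intro i hi
  have hi' := (hlt i).2 hi
  rw [List.mem_append] at hi'
  rcases hi' with hi' | hi'
  · refine order_places hj4 hj4' (S := P) (u := M) (v := []) (x := []) (y := a) ?_ ?_ hfa ?_ i hi'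
    · rw [List.append_nil, List.nil_append]
      exact h2
    · intro d hd
      simp at hd
    · intro i' hi''
      exact hS i' ((hlt i').1 (List.mem_append_left _ hi''))
  · refine order_places hj4 hj4' (S := Q) (u := φ 2) (v := N) (x := c ++ [2]) (y := []) ?_ ?_ ?_
      ?_ i hi'
    · rw [h3]
      simp
    · intro d hd
      rw [List.mem_append, List.mem_singleton] at hd
      rcases hd with hd | hd
      · exact hfc d hd
      · rw [hd]
        exact TT_s _ 0
    · intro d hd
      simp at hd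
    · intro i' hi''
      exact hS i' ((hlt i').1 (List.mem_append_right _ hi''))

theorem flat_cc {φ : ℕ → List ℕ} {m k k' : ℕ}
    (h : ∀ i < m, φ (3 * (5 * i + k) + 1) = [3 * (5 * i + k') + 1]) :
    (cc m k).flatMap φ = cc m k' := by
  rw [cc, List.flatMap_map, cc]
  have h1 : ∀ i ∈ List.range m, φ (3 * (5 * i + k) + 1) = [3 * (5 * i + k') + 1] :=
    fun i hi => h i (List.mem_range.1 hi)
  rw [List.flatMap_def, List.map_congr_left (g := fun i => [3 * (5 * i + k') + 1]) h1,
    ← List.flatMap_def]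
  induction List.range m with
  | nil => rfl
  | cons a l ih => rw [List.flatMap_cons, ih]; rfl

/-- (3) a letter between the two copies -/
theorem Cx.gap (H : Cx P Q m g h φ M N L) {j j' : Fin 4}
    (hj : φ (3 * (g j).val) = [3 * (h j').val]) {e1 e2 l : ℕ} (he1 : e1 < m) (he2 : e2 < m)
    (hY : [3 * (5 * e1 + j'.val) + 1, 3 * l, 3 * (5 * e2 + (j'.val + 1)) + 1].Sublist L) :
    ∃ i : Fin 4, (i.val = j.val + 1 ∨ i.val + 1 = j.val) ∧ φ (3 * (g i).val) = [3 * l] := by
  have hj4 := j.isLt
  have hj4' := j'.isLt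
  obtain ⟨a, c, h1, _, _⟩ := H.main
  obtain ⟨U, X, gap, h2, hgap⟩ := flat_dec φ m g j
  have ht := H.transp hj
  rw [hj, flat_cc (fun i hi => (ht i hi).1), flat_cc (fun i hi => (ht i hi).2)] at h2
  obtain ⟨c1, c2, hc⟩ := List.append_of_mem (mem_cc.2 ⟨e1, he1, rfl⟩ :
    3 * (5 * e1 + j'.val) + 1 ∈ cc m j'.val)
  obtain ⟨d1, d2, hd⟩ := List.append_of_mem (mem_cc.2 ⟨e2, he2, rfl⟩ :
    3 * (5 * e2 + (j'.val + 1)) + 1 ∈ cc m (j'.val + 1))
  have e1' : L = (a ++ (U ++ ([3 * (h j').val] ++ c1))) ++ (3 * (5 * e1 + j'.val) + 1) ::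
      ((c2 ++ (gap.flatMap φ ++ d1)) ++ (3 * (5 * e2 + (j'.val + 1)) + 1) ::
        (d2 ++ ([3 * (h j').val] ++ (X ++ c)))) := by
    rw [h1, h2, hc, hd]
    simp only [List.append_assoc, List.cons_append, List.nil_append]
  have n1 := count_z H.hL he1 (show j'.val < 5 by omega)
  have n2 := count_z H.hL he2 (show j'.val + 1 < 5 by omega)
  rw [e1'] at hY n1 n2
  have h3 := uniq_mid n1 n2 hY
  have hnc : ∀ k, 3 * l ∉ cc m k := by
    intro k h4
    obtain ⟨e, _, h5⟩ := mem_cc.1 h4
    omega
  rw [List.mem_append, List.mem_append] at h3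
  rcases h3 with h3 | h3 | h3
  · exact absurd (by rw [hc]; simp [h3]) (hnc j'.val)
  · rw [List.mem_flatMap] at h3
    obtain ⟨μ, hμ, h4⟩ := h3
    obtain ⟨i, rfl, hi⟩ := hgap μ hμ
    refine ⟨i, hi, ?_⟩
    rcases H.yimg i with h5 | ⟨b, h5⟩
    · rw [h5] at h4
      simp at h4
    · rw [h5, List.mem_singleton] at h4
      rw [h5, h4]
  · exact absurd (by rw [hd]; simp [h3]) (hnc (j'.val + 1))

theorem Lg_btw (m : ℕ) (g : Equiv.Perm (Fin 4)) (i : Fin 4) {e k : ℕ} (he : e < m)
    (hk : k = i.val ∨ k = i.val + 1) :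
    [3 * (g i).val, 3 * (5 * e + k) + 1, 3 * (g i).val].Sublist (Lg m g) := by
  obtain ⟨U, X, gap, h1, _⟩ := Lg_dec m g i
  rw [← btw_iff, h1]
  refine ⟨_, _, _, rfl, ?_⟩
  rw [List.mem_append, List.mem_append]
  rcases hk with rfl | rfl
  · exact Or.inl (mem_cc.2 ⟨e, he, rfl⟩)
  · exact Or.inr (Or.inr (mem_cc.2 ⟨e, he, rfl⟩))

theorem Cx.imBtw (H : Cx P Q m g h φ M N L) {i : Fin 4} {e k z Y : ℕ} (he : e < m)
    (hk : k = i.val ∨ k = i.val + 1) (hY : φ (3 * (g i).val) = [Y])
    (hz : φ (3 * (5 * e + k) + 1) = [z]) : Btw Y z L := by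
  obtain ⟨a, c, h1, _, _⟩ := H.main
  have h2 := sub_flat φ (Lg_btw m g i he hk)
  simp only [List.flatMap_cons, List.flatMap_nil, hY, hz, List.cons_append, List.nil_append,
    List.append_nil] at h2
  rw [btw_iff, h1]
  exact (h2.trans (List.sublist_append_left _ _)).trans (List.sublist_append_right _ _)

/-- the two copies in `L` -/
theorem Cx.two (H : Cx P Q m g h φ M N L) {j j' : Fin 4}
    (hj : φ (3 * (g j).val) = [3 * (h j').val]) {e1 e2 : ℕ} (he1 : e1 < m) (he2 : e2 < m) :
    [3 * (5 * e1 + j'.val) + 1, 3 * (5 * e2 + (j'.val + 1)) + 1].Sublist L := by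
  obtain ⟨a, c, h1, _, _⟩ := H.main
  obtain ⟨U, X, gap, h2, hgap⟩ := flat_dec φ m g j
  have ht := H.transp hj
  rw [hj, flat_cc (fun i hi => (ht i hi).1), flat_cc (fun i hi => (ht i hi).2)] at h2
  rw [h1, h2]
  refine List.Sublist.trans ?_ (List.sublist_append_right _ _)
  refine List.Sublist.trans ?_ (List.sublist_append_left _ _)
  refine List.Sublist.trans ?_ (List.sublist_append_right _ _)
  refine List.Sublist.trans ?_ (List.sublist_append_right _ _)
  refine List.Sublist.trans ?_ (List.sublist_append_left _ _)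
  have e : [3 * (5 * e1 + j'.val) + 1, 3 * (5 * e2 + (j'.val + 1)) + 1] =
    [3 * (5 * e1 + j'.val) + 1] ++ [3 * (5 * e2 + (j'.val + 1)) + 1] := rfl
  rw [e]
  refine List.Sublist.append ?_ ?_
  · rw [List.singleton_sublist]
    exact mem_cc.2 ⟨e1, he1, rfl⟩
  · refine List.Sublist.trans ?_ (List.sublist_append_right _ _)
    rw [List.singleton_sublist]
    exact mem_cc.2 ⟨e2, he2, rfl⟩

/-- right neighbour -/
theorem Cx.right (H : Cx P Q m g h φ M N L) {j j' b : Fin 4} (hb : b.val = j'.val + 1)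
    (hj : φ (3 * (g j).val) = [3 * (h j').val]) :
    ∃ i : Fin 4, i.val = j.val + 1 ∧ φ (3 * (g i).val) = [3 * (h b).val] := by
  have hb4 := b.isLt
  have hm := H.hm
  obtain ⟨e1, he1, h1⟩ := H.F2 b j'.val (by omega) (by omega)
  have h2 := H.F1 b (j'.val + 1) (Or.inl (by omega)) 0 (by omega)
  rw [btw_iff] at h1 h2
  have h3 := ord3R (H.two hj he1 (show 0 < m by omega)) h2 h1
    (count_z H.hL (by omega) (by omega)) (by omega)
  obtain ⟨i, hi, h4⟩ := H.gap hj he1 (by omega) h3
  rcases hi with hi | hi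
  · exact ⟨i, hi, h4⟩
  · exfalso
    apply h1
    rw [← btw_iff]
    have h5 := ((H.transp hj) e1 he1).1
    exact H.imBtw he1 (Or.inr hi.symm) h4 h5

/-- left neighbour -/
theorem Cx.left (H : Cx P Q m g h φ M N L) {j j' b : Fin 4} (hb : b.val + 1 = j'.val)
    (hj : φ (3 * (g j).val) = [3 * (h j').val]) :
    ∃ i : Fin 4, i.val + 1 = j.val ∧ φ (3 * (g i).val) = [3 * (h b).val] := by
  have hj4' := j'.isLt
  have hm := H.hm
  obtain ⟨e2, he2, h1⟩ := H.F2 b (j'.val + 1) (by omega) (by omega)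
  have h2 := H.F1 b j'.val (Or.inr (by omega)) 0 (by omega)
  rw [btw_iff] at h1 h2
  have h3 := ord3L (H.two hj (show 0 < m by omega) he2) h2 h1
    (count_z H.hL (by omega) (by omega)) (by omega)
  obtain ⟨i, hi, h4⟩ := H.gap hj (by omega) he2 h3
  rcases hi with hi | hi
  · exfalso
    apply h1
    rw [← btw_iff]
    have h5 := ((H.transp hj) e2 he2).2
    exact H.imBtw he2 (Or.inl hi.symm) h4 h5
  · exact ⟨i, hi, h4⟩

/-- (4) all letters `y` -/
theorem Cx.all (H : Cx P Q m g h φ M N L) (i : Fin 4) :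
    φ (3 * (g i).val) = [3 * (h i).val] := by
  have hR : ∀ n : ℕ, ∀ j j' : Fin 4, φ (3 * (g j).val) = [3 * (h j').val] → j'.val + n = 3 →
      j.val ≤ j'.val := by
    intro n
    induction n with
    | zero =>
      intro j j' _ h1
      have := j.isLt
      omega
    | succ n ih =>
      intro j j' h1 h2
      obtain ⟨i, hi, h3⟩ := H.right (b := ⟨j'.val + 1, by omega⟩) rfl h1
      have h4 := ih i _ h3 (by simp only; omega)
      simp only at h4
      omega
  have hLt : ∀ n : ℕ, ∀ j j' : Fin 4, φ (3 * (g j).val) = [3 * (h j').val] → j'.val = n →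
      ∃ i : Fin 4, i.val + j'.val = j.val ∧ φ (3 * (g i).val) = [3 * (h 0).val] := by
    intro n
    induction n with
    | zero =>
      intro j j' h1 h2
      have h3 : j' = 0 := Fin.ext h2
      subst h3
      exact ⟨j, by simp, h1⟩
    | succ n ih =>
      intro j j' h1 h2
      obtain ⟨i, hi, h3⟩ := H.left (b := ⟨n, by have := j'.isLt; omega⟩) (by simp only; omega) h1
      obtain ⟨i', hi', h4⟩ := ih i _ h3 rfl
      simp only at hi'
      exact ⟨i', by omega, h4⟩
  obtain ⟨j0, hj0⟩ := H.hne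
  have hj1 : j0 = g (g.symm j0) := by simp
  rw [hj1] at hj0
  obtain ⟨b, hb⟩ : ∃ j' : Fin 4, φ (3 * (g (g.symm j0)).val) = [3 * (h j').val] := by
    rcases H.yimg (g.symm j0) with h1 | h1
    · exact absurd h1 hj0
    · exact h1
  have hb4 := b.isLt
  obtain ⟨i0, h1, h2⟩ := hLt _ _ _ hb rfl
  have h3 := hR (3 - b.val) _ _ hb (by omega)
  have h4 : i0 = 0 := Fin.ext (by simp; omega)
  subst h4
  have hF : ∀ n : ℕ, ∀ j : Fin 4, j.val = n → φ (3 * (g j).val) = [3 * (h j).val] := by
    intro n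
    induction n with
    | zero =>
      intro j hj
      have h5 : j = 0 := Fin.ext hj
      subst h5
      exact h2
    | succ n ih =>
      intro j hj
      have hj4 := j.isLt
      have h5 := ih ⟨n, by omega⟩ rfl
      obtain ⟨i', hi', h6⟩ := H.right (b := j) (by simp only; omega) h5
      have h7 : i' = j := Fin.ext (by rw [hi']; simp only; omega)
      subst h7
      exact h6
  exact hF _ i rfl

theorem Lg_flat {φ : ℕ → List ℕ} {m : ℕ} {g h : Equiv.Perm (Fin 4)}
    (h1 : ∀ i : Fin 4, φ (3 * (g i).val) = [3 * (h i).val])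
    (h2 : ∀ i < m, ∀ k < 5, φ (3 * (5 * i + k) + 1) = [3 * (5 * i + k) + 1])
    (s : Equiv.Perm (Fin 4)) : (Lg m (g * s)).flatMap φ = Lg m (h * s) := by
  have h3 : ∀ i : Fin 4, φ (3 * ((g * s) i).val) = [3 * ((h * s) i).val] := fun i => h1 (s i)
  have h4 : ∀ k < 5, (cc m k).flatMap φ = cc m k := fun k hk => flat_cc (fun i hi => h2 i hi k hk)
  simp only [Lg, List.flatMap_append, List.flatMap_cons, List.flatMap_nil, h3,
    h4 0 (by norm_num), h4 1 (by norm_num), h4 2 (by norm_num), h4 3 (by norm_num),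
    h4 4 (by norm_num)]
  rfl

end Pool.Agent.MVD.H40
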